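import Mathlib
import Pool.Agent.Helper25.SNumStrong

set_option autoImplicit false

namespace Pool.Agent.Results.MP_f13ad7_nt.TypeOne

open Polynomial Filter Topology

/-- `H(P)`: the maximum of the absolute values of the coefficients of `P`. -/
def height (P : ℤ[X]) : ℕ := P.support.sup fun i => (P.coeff i).natAbs

/-- `P` is the minimal polynomial `P_α` of the real number `α` over `ℤ` (primitive, integer
coefficients; unique up to sign): `P` is primitive and is a rational multiple of the minimal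
polynomial of `α` over `ℚ`. There is no such `P` if `α` is transcendental. -/
def IsIntMinpoly (α : ℝ) (P : ℤ[X]) : Prop :=
  P.IsPrimitive ∧ ∃ c : ℚ, P.map (Int.castRingHom ℚ) = C c * minpoly ℚ α

/-- The integer polynomials `P` of degree at most `n` with `0 < |P(ξ)| ≤ H(P)^(-w)`. -/
def polySet (ξ : ℝ) (n : ℕ) (w : ℝ) : Set ℤ[X] :=
  {P | P.natDegree ≤ n ∧ 0 < |aeval ξ P| ∧ |aeval ξ P| ≤ (height P : ℝ) ^ (-w)}

/-- The real algebraic numbers `α` of degree at most `n` with `0 < |ξ - α| ≤ H(α)^(-w-1)`. -/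
def algSet (ξ : ℝ) (n : ℕ) (w : ℝ) : Set ℝ :=
  {α | ∃ P : ℤ[X], IsIntMinpoly α P ∧ P.natDegree ≤ n ∧
    0 < |ξ - α| ∧ |ξ - α| ≤ (height P : ℝ) ^ (-w - 1)}

/-- `w_n(ξ)`: the supremum of the real `w` for which `polySet ξ n w` is infinite. -/
noncomputable def w (n : ℕ) (ξ : ℝ) : EReal :=
  sSup ((fun x : ℝ => (x : EReal)) '' {x : ℝ | (polySet ξ n x).Infinite})

/-- `w_n^*(ξ)`: the supremum of the real `w` for which `algSet ξ n w` is infinite. -/
noncomputable def wStar (n : ℕ) (ξ : ℝ) : EReal :=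
  sSup ((fun x : ℝ => (x : EReal)) '' {x : ℝ | (algSet ξ n x).Infinite})

/-- `w(ξ) = limsup w_n(ξ)/n`. -/
noncomputable def wLimsup (ξ : ℝ) : EReal :=
  limsup (fun n : ℕ => w n ξ / (n : EReal)) atTop

/-- `w^*(ξ) = limsup w_n^*(ξ)/n`. -/
noncomputable def wStarLimsup (ξ : ℝ) : EReal :=
  limsup (fun n : ℕ => wStar n ξ / (n : EReal)) atTop

/-- `ξ` is an S-number: transcendental with `w(ξ) < ∞`. -/
def IsSNumber (ξ : ℝ) : Prop := Transcendental ℚ ξ ∧ wLimsup ξ < ⊤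

/-- `ξ` is an S*-number: transcendental with `w^*(ξ) < ∞`. -/
def IsSStarNumber (ξ : ℝ) : Prop := Transcendental ℚ ξ ∧ wStarLimsup ξ < ⊤

/-- The type `t(ξ) = limsup (w_n(ξ)+1)/(n+1)`. -/
noncomputable def type (ξ : ℝ) : EReal :=
  limsup (fun n : ℕ => (w n ξ + 1) / ((n : EReal) + 1)) atTop

/-- The `*`-type `t^*(ξ) = limsup (w_n^*(ξ)+1)/(n+1)`. -/
noncomputable def typeStar (ξ : ℝ) : EReal :=
  limsup (fun n : ℕ => (wStar n ξ + 1) / ((n : EReal) + 1)) atTop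

open Pool.Agent.Helper25.SNum

private lemma height_eq (P : ℤ[X]) : height P = ht P := rfl

private lemma isIntMinpoly_iff (α : ℝ) (P : ℤ[X]) :
    IsIntMinpoly α P ↔ Irreducible P ∧ aeval α P = 0 := by
  have hev : aeval α (P.map (Int.castRingHom ℚ)) = aeval α P := by
    have h := aeval_map_algebraMap (B := ℝ) ℚ α P
    simpa using h
  constructor
  · rintro ⟨hprim, c, hc⟩
    have hP0 : P ≠ 0 := hprim.ne_zero
    have hmap0 : P.map (Int.castRingHom ℚ) ≠ 0 := by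
      rw [Ne, Polynomial.map_eq_zero_iff (RingHom.injective_int (Int.castRingHom ℚ))]
      exact hP0
    have hc0 : c ≠ 0 := by
      rintro rfl
      apply hmap0
      rw [hc]; simp
    have hm0 : minpoly ℚ α ≠ 0 := by
      intro h
      apply hmap0
      rw [hc, h, mul_zero]
    have hint : IsIntegral ℚ α := by
      by_contra h
      exact hm0 (minpoly.eq_zero h)
    refine ⟨?_, ?_⟩
    · rw [Polynomial.IsPrimitive.Int.irreducible_iff_irreducible_map_cast hprim, hc]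
      rw [irreducible_isUnit_mul (isUnit_C.2 (IsUnit.mk0 c hc0))]
      exact minpoly.irreducible hint
    · rw [← hev, hc, map_mul, minpoly.aeval, mul_zero]
  · rintro ⟨hirr, hroot⟩
    have hP0 : P ≠ 0 := hirr.ne_zero
    have hdeg : P.natDegree ≠ 0 := by
      intro h
      rw [natDegree_eq_zero] at h
      obtain ⟨c, hc⟩ := h
      rw [← hc, aeval_C, algebraMap_int_eq, eq_intCast] at hroot
      have hc0 : c = 0 := by exact_mod_cast hroot
      apply hP0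
      rw [← hc, hc0, C_0]
    have hprim := hirr.isPrimitive hdeg
    refine ⟨hprim, ?_⟩
    have hirr' := (Polynomial.IsPrimitive.Int.irreducible_iff_irreducible_map_cast hprim).1 hirr
    have h := minpoly.eq_of_irreducible hirr' (by rw [hev, hroot])
    set R := P.map (Int.castRingHom ℚ) with hR
    have hl : R.leadingCoeff ≠ 0 := by
      rw [Ne, leadingCoeff_eq_zero]; exact hirr'.ne_zero
    refine ⟨R.leadingCoeff, ?_⟩
    rw [← h, mul_comm R, ← mul_assoc, ← C_mul, mul_inv_cancel₀ hl, C_1, one_mul]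

private lemma transcendental_int {ξ : ℝ} (h : Transcendental ℚ ξ) : Transcendental ℤ ξ := by
  intro h2
  exact h ((IsFractionRing.isAlgebraic_iff ℤ ℚ ℝ).1 h2)

private lemma polySet_eq (ξ : ℝ) (n : ℕ) (x : ℝ) :
    polySet ξ n x = {P : ℤ[X] | P.natDegree ≤ n ∧ aeval ξ P ≠ 0 ∧
      |aeval ξ P| ≤ (ht P : ℝ) ^ (-x)} := by
  ext P
  simp only [polySet, Set.mem_ofPred_eq, abs_pos, height_eq]

private lemma algSet_eq (ξ : ℝ) (n : ℕ) (x : ℝ) :
    algSet ξ n x = {α : ℝ | ∃ Q : ℤ[X], Irreducible Q ∧ Q.natDegree ≤ n ∧ aeval α Q = 0 ∧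
      α ≠ ξ ∧ |ξ - α| ≤ (ht Q : ℝ) ^ (-(x + 1))} := by
  ext α
  simp only [algSet, Set.mem_ofPred_eq, height_eq]
  have e : -x - 1 = -(x + 1) := by ring
  constructor
  · rintro ⟨P, h1, h2, h3, h4⟩
    rw [isIntMinpoly_iff] at h1
    refine ⟨P, h1.1, h2, h1.2, ?_, by rw [← e]; exact h4⟩
    intro h
    rw [h] at h3
    simp at h3
  · rintro ⟨P, h1, h2, h3, h4, h5⟩
    refine ⟨P, (isIntMinpoly_iff α P).2 ⟨h1, h3⟩, h2, ?_, by rw [e]; exact h5⟩
    exact abs_pos.2 (sub_ne_zero.2 (Ne.symm h4))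

private lemma algSet_mono (ξ : ℝ) (n : ℕ) {x y : ℝ} (hxy : x ≤ y) :
    algSet ξ n y ⊆ algSet ξ n x := by
  rintro α ⟨P, h1, h2, h3, h4⟩
  refine ⟨P, h1, h2, h3, h4.trans ?_⟩
  have hP0 : P ≠ 0 := h1.1.ne_zero
  have hht1 : (1 : ℝ) ≤ height P := by rw [height_eq]; exact_mod_cast one_le_ht hP0
  exact Real.rpow_le_rpow_of_exponent_le hht1 (by linarith)

private lemma finite_of_w_lt {ξ : ℝ} {n : ℕ} {x : ℝ} (h : w n ξ < (x : EReal)) :
    (polySet ξ n x).Finite := by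
  by_contra hinf
  have h2 : (x : EReal) ≤ w n ξ := le_sSup ⟨x, hinf, rfl⟩
  exact absurd h (not_lt.2 h2)

private lemma polySet_mono (ξ : ℝ) (n : ℕ) {x y : ℝ} (hxy : x ≤ y) :
    polySet ξ n y ⊆ polySet ξ n x := by
  rintro P ⟨h2, h3, h4⟩
  refine ⟨h2, h3, h4.trans ?_⟩
  have hP0 : P ≠ 0 := by
    rintro rfl
    simp at h3
  have hht1 : (1 : ℝ) ≤ height P := by rw [height_eq]; exact_mod_cast one_le_ht hP0
  exact Real.rpow_le_rpow_of_exponent_le hht1 (by linarith)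

private lemma w_le_of_finite {ξ : ℝ} {n : ℕ} {x : ℝ} (h : (polySet ξ n x).Finite) :
    w n ξ ≤ (x : EReal) := by
  apply sSup_le
  rintro _ ⟨y, hy, rfl⟩
  by_contra hcon
  push Not at hcon
  have hxy : x ≤ y := (EReal.coe_lt_coe_iff.1 hcon).le
  exact hy (h.subset (polySet_mono ξ n hxy))

private lemma wStar_le_of_finite {ξ : ℝ} {n : ℕ} {x : ℝ} (h : (algSet ξ n x).Finite) :
    wStar n ξ ≤ (x : EReal) := by
  apply sSup_le
  rintro _ ⟨y, hy, rfl⟩
  by_contra hcon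
  push Not at hcon
  have hxy : x ≤ y := (EReal.coe_lt_coe_iff.1 hcon).le
  exact hy (h.subset (algSet_mono ξ n hxy))

private lemma le_wStar_of_infinite {ξ : ℝ} {n : ℕ} {x : ℝ} (h : (algSet ξ n x).Infinite) :
    (x : EReal) ≤ wStar n ξ := le_sSup ⟨x, h, rfl⟩

private lemma lt_of_add_one_lt {a : EReal} {r : ℝ} (h : a + 1 < (r : EReal)) :
    a < ((r - 1 : ℝ) : EReal) := by
  induction a with
  | bot => exact EReal.bot_lt_coe _
  | top =>
    exfalso
    rw [EReal.top_add_of_ne_bot (by exact EReal.coe_ne_bot 1)] at h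
    exact absurd h (not_lt.2 le_top)
  | coe a =>
    have h1 : ((a + 1 : ℝ) : EReal) < (r : EReal) := by
      rw [EReal.coe_add]; exact h
    rw [EReal.coe_lt_coe_iff] at h1 ⊢
    linarith

/-- a bound for the type gives finiteness for every larger exponent -/
private lemma finite_of_type_lt {ξ : ℝ} {c : ℝ} (h : type ξ < (c : EReal)) :
    ∃ N : ℕ, ∀ n : ℕ, N ≤ n → {P : ℤ[X] | P.natDegree ≤ n ∧ aeval ξ P ≠ 0 ∧
      |aeval ξ P| ≤ (ht P : ℝ) ^ (-(c * (n : ℝ)))}.Finite := by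
  obtain ⟨c', hc'1, hc'2⟩ := EReal.lt_iff_exists_real_btwn.1 h
  rw [EReal.coe_lt_coe_iff] at hc'2
  have hev := eventually_lt_of_limsup_lt hc'1
  obtain ⟨N, hN⟩ := eventually_atTop.1 hev
  refine ⟨max N ⌈|c' - 1| / (c - c')⌉₊, fun n hn => ?_⟩
  have h1 := hN n ((le_max_left _ _).trans hn)
  have h2 : |c' - 1| / (c - c') ≤ n :=
    (Nat.le_ceil _).trans (by exact_mod_cast (le_max_right _ _).trans hn)
  rw [div_le_iff₀ (by linarith)] at h2
  have e : ((n : EReal) + 1) = (((n : ℝ) + 1 : ℝ) : EReal) := by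
    rw [EReal.coe_add]; rfl
  rw [e, EReal.div_lt_iff (by exact_mod_cast (by positivity : (0 : ℝ) < (n : ℝ) + 1))
    (EReal.coe_ne_top _), ← EReal.coe_mul] at h1
  have h3 := lt_of_add_one_lt h1
  have h4 : w n ξ < ((c * n : ℝ) : EReal) := by
    refine h3.trans_le ?_
    rw [EReal.coe_le_coe_iff]
    have h5 : c' - 1 ≤ |c' - 1| := le_abs_self _
    nlinarith
  have h6 := finite_of_w_lt h4
  rw [polySet_eq] at h6
  exact h6

private lemma tendsto_one {f : ℕ → EReal}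
    (h1 : ∀ ε : ℝ, 0 < ε → ∀ᶠ n in atTop, ((1 - ε : ℝ) : EReal) ≤ f n)
    (h2 : ∀ ε : ℝ, 0 < ε → ∀ᶠ n in atTop, f n ≤ ((1 + ε : ℝ) : EReal)) :
    Tendsto f atTop (𝓝 1) := by
  rw [tendsto_order]
  constructor
  · intro a ha
    obtain ⟨r, hr1, hr2⟩ := EReal.lt_iff_exists_real_btwn.1 ha
    have hr3 : r < 1 := by exact_mod_cast hr2
    filter_upwards [h1 (1 - r) (by linarith)] with n hn
    refine hr1.trans_le ?_
    simpa using hn
  · intro a ha
    obtain ⟨r, hr1, hr2⟩ := EReal.lt_iff_exists_real_btwn.1 ha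
    have hr3 : 1 < r := by exact_mod_cast hr1
    filter_upwards [h2 (r - 1) (by linarith)] with n hn
    refine lt_of_le_of_lt ?_ hr2
    simpa using hn

private lemma coe_le_div {a : EReal} {n : ℕ} (hn : 0 < n) {c : ℝ}
    (h : ((c * n : ℝ) : EReal) ≤ a) : (c : EReal) ≤ a / (n : EReal) := by
  have e : (n : EReal) = ((n : ℝ) : EReal) := rfl
  have hn' : (0 : ℝ) < n := by exact_mod_cast hn
  rw [e, EReal.le_div_iff_mul_le (by exact_mod_cast hn') (EReal.coe_ne_top _), ← EReal.coe_mul]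
  exact h

private lemma div_le_coe {a : EReal} {n : ℕ} (hn : 0 < n) {c : ℝ}
    (h : a ≤ ((c * n : ℝ) : EReal)) : a / (n : EReal) ≤ (c : EReal) := by
  have e : (n : EReal) = ((n : ℝ) : EReal) := rfl
  have hn' : (0 : ℝ) < n := by exact_mod_cast hn
  rw [e, EReal.div_le_iff_le_mul (by exact_mod_cast hn') (EReal.coe_ne_top _), ← EReal.coe_mul,
    mul_comm]
  exact h

/-- lower bound, quantitative -/
private lemma lower {ξ : ℝ} (hξ : Transcendental ℚ ξ) (q : ℕ) (hq : 20 ≤ q)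
    (ht : type ξ < ((1 + 1 / (q : ℝ) ^ 2 : ℝ) : EReal)) (η : ℝ) (hη : 0 < η) :
    ∀ᶠ n : ℕ in atTop, (((1 - 13 / ((q : ℝ) + 1) - η) * n : ℝ) : EReal) ≤ wStar n ξ := by
  obtain ⟨N, hN⟩ := strong ξ (transcendental_int hξ) q hq (finite_of_type_lt ht) η hη
  filter_upwards [eventually_ge_atTop N] with n hn
  apply le_wStar_of_infinite
  rw [algSet_eq]
  exact hN n hn

private lemma liminf_ge {ξ : ℝ} (hξ : Transcendental ℚ ξ) (q : ℕ) (hq : 20 ≤ q)
    (ht : type ξ < ((1 + 1 / (q : ℝ) ^ 2 : ℝ) : EReal)) :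
    ((1 - 13 / ((q : ℝ) + 1) : ℝ) : EReal) ≤
      liminf (fun n : ℕ => wStar n ξ / (n : EReal)) atTop := by
  apply le_of_forall_lt
  intro a ha
  obtain ⟨r, hr1, hr2⟩ := EReal.lt_iff_exists_real_btwn.1 ha
  rw [EReal.coe_lt_coe_iff] at hr2
  refine hr1.trans_le ?_
  apply le_liminf_of_le (by isBoundedDefault)
  filter_upwards [lower hξ q hq ht (1 - 13 / ((q : ℝ) + 1) - r) (by linarith),
    eventually_gt_atTop 0] with n hn hn0
  apply coe_le_div hn0
  have e : (1 - 13 / ((q : ℝ) + 1) - (1 - 13 / ((q : ℝ) + 1) - r)) = r := by ring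
  rw [e] at hn
  exact hn

private lemma lower_one {ξ : ℝ} (hξ : Transcendental ℚ ξ) (ht : type ξ = 1) (ε : ℝ)
    (hε : 0 < ε) : ∀ᶠ n : ℕ in atTop, (((1 - ε) * n : ℝ) : EReal) ≤ wStar n ξ := by
  obtain ⟨q, hq1, hq2⟩ : ∃ q : ℕ, 20 ≤ q ∧ 26 / ε ≤ q :=
    ⟨max 20 ⌈26 / ε⌉₊, le_max_left _ _,
      (Nat.le_ceil _).trans (by exact_mod_cast le_max_right _ _)⟩
  have hq0 : (0 : ℝ) < q := by
    have : (20 : ℝ) ≤ q := by exact_mod_cast hq1
    linarith
  have hlt : type ξ < ((1 + 1 / (q : ℝ) ^ 2 : ℝ) : EReal) := by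
    rw [ht]
    have : (1 : ℝ) < 1 + 1 / (q : ℝ) ^ 2 := by
      have : 0 < 1 / (q : ℝ) ^ 2 := by positivity
      linarith
    exact_mod_cast this
  filter_upwards [lower hξ q hq1 hlt (ε / 2) (by positivity)] with n hn
  refine le_trans ?_ hn
  rw [EReal.coe_le_coe_iff]
  apply mul_le_mul_of_nonneg_right _ (Nat.cast_nonneg n)
  have h1 : 13 / ((q : ℝ) + 1) ≤ ε / 2 := by
    rw [div_le_iff₀ (by positivity)]
    rw [div_le_iff₀ hε] at hq2
    nlinarith
  linarith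

private lemma upper_one {ξ : ℝ} (hξ : Transcendental ℚ ξ) (ht : type ξ = 1) (ε : ℝ)
    (hε : 0 < ε) : ∀ᶠ n : ℕ in atTop, wStar n ξ ≤ (((1 + ε) * n : ℝ) : EReal) := by
  have hyp : ∀ ε : ℝ, 0 < ε → ∃ N : ℕ, ∀ n : ℕ, N ≤ n →
        {P : ℤ[X] | P.natDegree ≤ n ∧ aeval ξ P ≠ 0 ∧
          |aeval ξ P| ≤ (Pool.Agent.Helper25.SNum.ht P : ℝ) ^ (-((1 + ε) * (n : ℝ)))}.Finite := by
    intro ε hε
    apply finite_of_type_lt
    rw [ht]
    have : (1 : ℝ) < 1 + ε := by linarith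
    exact_mod_cast this
  obtain ⟨N, hN⟩ := part_one ξ (transcendental_int hξ) hyp ε hε
  filter_upwards [eventually_ge_atTop N] with n hn
  apply wStar_le_of_finite
  rw [algSet_eq]
  exact hN n hn

private lemma add_one_div {a : EReal} {n : ℕ} {c : ℝ}
    (hc : c ≤ 1) (h : ((c * n : ℝ) : EReal) ≤ a) : (c : EReal) ≤ (a + 1) / ((n : EReal) + 1) := by
  have e : ((n : EReal) + 1) = (((n : ℝ) + 1 : ℝ) : EReal) := by
    rw [EReal.coe_add]; rfl
  have hn' : (0 : ℝ) < (n : ℝ) + 1 := by positivity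
  rw [e, EReal.le_div_iff_mul_le (by exact_mod_cast hn') (EReal.coe_ne_top _), ← EReal.coe_mul]
  have h2 : ((c * n + 1 : ℝ) : EReal) ≤ a + 1 := by
    rw [EReal.coe_add]
    exact add_le_add_left h 1
  refine le_trans ?_ h2
  rw [EReal.coe_le_coe_iff]
  linarith

private lemma add_one_div_le {a : EReal} {n : ℕ} {c : ℝ}
    (hc : 1 ≤ c) (h : a ≤ ((c * n : ℝ) : EReal)) : (a + 1) / ((n : EReal) + 1) ≤ (c : EReal) := by
  have e : ((n : EReal) + 1) = (((n : ℝ) + 1 : ℝ) : EReal) := by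
    rw [EReal.coe_add]; rfl
  have hn' : (0 : ℝ) < (n : ℝ) + 1 := by positivity
  rw [e, EReal.div_le_iff_le_mul (by exact_mod_cast hn') (EReal.coe_ne_top _), ← EReal.coe_mul,
    mul_comm]
  have h2 : a + 1 ≤ ((c * n + 1 : ℝ) : EReal) := by
    rw [EReal.coe_add]
    exact add_le_add_left h 1
  refine h2.trans ?_
  rw [EReal.coe_le_coe_iff]
  linarith

/-- Every real S-number `ξ` with `t(ξ) = 1` is an S*-number with `t^*(ξ) = 1`, and
`w_n^*(ξ)/n → 1`; quantitatively, for every integer `q ≥ 20`, a real transcendental `ξ` with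
`t(ξ) < 1 + 1/q²` satisfies `liminf w_n^*(ξ)/n ≥ 1 - 13/(q+1)`. -/
theorem result :
    (∀ ξ : ℝ, IsSNumber ξ → type ξ = 1 →
      IsSStarNumber ξ ∧ typeStar ξ = 1 ∧
        Tendsto (fun n : ℕ => wStar n ξ / (n : EReal)) atTop (𝓝 1)) ∧
    (∀ ξ : ℝ, Transcendental ℚ ξ → ∀ q : ℕ, 20 ≤ q →
      type ξ < ((1 + 1 / (q : ℝ) ^ 2 : ℝ) : EReal) →
      ((1 - 13 / ((q : ℝ) + 1) : ℝ) : EReal) ≤
        liminf (fun n : ℕ => wStar n ξ / (n : EReal)) atTop) := by
  refine ⟨?_, fun ξ hξ q hq ht => liminf_ge hξ q hq ht⟩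
  rintro ξ ⟨hξ, _⟩ ht
  have hlim : Tendsto (fun n : ℕ => wStar n ξ / (n : EReal)) atTop (𝓝 1) := by
    apply tendsto_one
    · intro ε hε
      filter_upwards [lower_one hξ ht ε hε, eventually_gt_atTop 0] with n hn hn0
      exact coe_le_div hn0 hn
    · intro ε hε
      filter_upwards [upper_one hξ ht ε hε, eventually_gt_atTop 0] with n hn hn0
      exact div_le_coe hn0 hn
  have hlim2 : Tendsto (fun n : ℕ => (wStar n ξ + 1) / ((n : EReal) + 1)) atTop (𝓝 1) := by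
    apply tendsto_one
    · intro ε hε
      filter_upwards [lower_one hξ ht ε hε] with n hn
      exact add_one_div (by linarith) hn
    · intro ε hε
      filter_upwards [upper_one hξ ht ε hε] with n hn
      exact add_one_div_le (by linarith) hn
  refine ⟨⟨hξ, ?_⟩, hlim2.limsup_eq, hlim⟩
  rw [wStarLimsup, hlim.limsup_eq]
  exact EReal.coe_lt_top 1

end Pool.Agent.Results.MP_f13ad7_nt.TypeOne
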